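import Pool.Agent.Q145.GB.Wt

set_option autoImplicit false
set_option maxHeartbeats 4000000

/-! # The moments of `n / φ(n)` over shifted primes -/

namespace Pool.Agent.Q145.GB

open Finset

/-- Jensen's inequality for powers -/
theorem inner_le_pow_mean {ι : Type} (s : Finset ι) (w z : ι → ℝ) (hw : ∀ i ∈ s, 0 ≤ w i)
    (hw' : ∑ i ∈ s, w i = 1) (hz : ∀ i ∈ s, 0 ≤ z i) (n : ℕ) :
    (∑ i ∈ s, w i * z i) ^ n ≤ ∑ i ∈ s, w i * z i ^ n :=
  Real.pow_arith_mean_le_arith_mean_pow s w z hw hw' hz n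

/-- powers of the truncated sum of the reciprocals of the divisors -/
theorem pow_trunc (K : ℕ) : ∃ C : ℝ, 0 < C ∧ ∀ n D : ℕ, n ≠ 0 → 1 ≤ D → n ≤ D * D →
    ((n : ℝ) / n.totient) ^ K ≤
      C * (1 + ∑ d ∈ (Icc 1 D).filter (fun d => d ∣ n), (1 : ℝ) / (d : ℝ) ^ (3 / 4 : ℝ)) := by
  classical
  rcases Nat.lt_or_ge K 2 with hK | hK
  · -- `K ≤ 1`
    refine ⟨2, by norm_num, fun n D hn hD hnD => ?_⟩
    have h1 := ratio_le_trunc n D hn hD hnD
    have h2 : ∑ d ∈ (Icc 1 D).filter (fun d => d ∣ n), (1 : ℝ) / d ≤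
        ∑ d ∈ (Icc 1 D).filter (fun d => d ∣ n), (1 : ℝ) / (d : ℝ) ^ (3 / 4 : ℝ) := by
      apply sum_le_sum
      intro d hd
      rw [mem_filter, mem_Icc] at hd
      have hd1 : (1 : ℝ) ≤ d := by exact_mod_cast hd.1.1
      apply one_div_le_one_div_of_le (by positivity)
      calc (d : ℝ) ^ (3 / 4 : ℝ) ≤ (d : ℝ) ^ (1 : ℝ) := Real.rpow_le_rpow_of_exponent_le hd1 (by norm_num)
        _ = d := Real.rpow_one _
    have h3 : 0 ≤ ∑ d ∈ (Icc 1 D).filter (fun d => d ∣ n), (1 : ℝ) / (d : ℝ) ^ (3 / 4 : ℝ) :=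
      sum_nonneg fun d _ => by positivity
    interval_cases K
    · rw [pow_zero]; linarith
    · rw [pow_one]; linarith
  · -- Jensen
    set δ : ℝ := 1 / (4 * ((K : ℝ) - 1)) with hδ
    have hK2 : (2 : ℝ) ≤ K := by exact_mod_cast hK
    have hK1 : (0 : ℝ) < (K : ℝ) - 1 := by linarith
    have hδ0 : 0 < δ := by rw [hδ]; positivity
    have hsm : Summable (fun d : ℕ => (1 : ℝ) / (d : ℝ) ^ (1 + δ : ℝ)) :=
      Real.summable_one_div_nat_rpow.2 (by linarith)
    set W : ℝ := ∑' d : ℕ, (1 : ℝ) / (d : ℝ) ^ (1 + δ : ℝ) with hW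
    have hW0 : 0 ≤ W := tsum_nonneg fun d => by positivity
    refine ⟨4 ^ K * (1 + W ^ (K - 1)), by positivity, fun n D hn hD hnD => ?_⟩
    have h1 := ratio_le_trunc n D hn hD hnD
    set F := (Icc 1 D).filter (fun d => d ∣ n) with hF
    set s := ∑ d ∈ F, (1 : ℝ) / d with hs
    set s' := ∑ d ∈ F, (1 : ℝ) / (d : ℝ) ^ (3 / 4 : ℝ) with hs'
    have hs0 : 0 ≤ s := sum_nonneg fun d _ => by positivity
    have hs'0 : 0 ≤ s' := sum_nonneg fun d _ => by positivity
    have hFd : ∀ d ∈ F, (0 : ℝ) < d := by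
      intro d hd
      rw [hF, mem_filter, mem_Icc] at hd
      exact_mod_cast hd.1.1
    -- `s ^ K ≤ W ^ (K - 1) s'`
    set w : ℝ := ∑ d ∈ F, (1 : ℝ) / (d : ℝ) ^ (1 + δ : ℝ) with hw
    have hw0 : 0 ≤ w := sum_nonneg fun d _ => by positivity
    have hwW : w ≤ W := hsm.sum_le_tsum _ (fun d _ => by positivity)
    have hJ : s ^ K ≤ w ^ (K - 1) * s' := by
      rcases F.eq_empty_or_nonempty with h0 | h0
      · rw [hs, h0, sum_empty, zero_pow (by omega)]
        positivity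
      · have hwp : 0 < w := by
          rw [hw]
          apply sum_pos _ h0
          intro d hd
          have := hFd d hd
          positivity
        have h2 := inner_le_pow_mean F (fun d : ℕ => (1 : ℝ) / (d : ℝ) ^ (1 + δ : ℝ) / w)
          (fun d : ℕ => (d : ℝ) ^ δ) (fun d _ => by positivity) (by
            rw [← sum_div]
            exact div_self hwp.ne') (fun d _ => by positivity) K
        have h3 : ∑ d ∈ F, (1 : ℝ) / (d : ℝ) ^ (1 + δ : ℝ) / w * (d : ℝ) ^ δ = s / w := by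
          rw [hs, sum_div]
          apply sum_congr rfl
          intro d hd
          have hd0 := hFd d hd
          rw [Real.rpow_add hd0, Real.rpow_one]
          have : 0 < (d : ℝ) ^ δ := Real.rpow_pos_of_pos hd0 _
          field_simp
        have h4 : ∑ d ∈ F, (1 : ℝ) / (d : ℝ) ^ (1 + δ : ℝ) / w * ((d : ℝ) ^ δ) ^ K = s' / w := by
          rw [hs', sum_div]
          apply sum_congr rfl
          intro d hd
          have hd0 := hFd d hd
          have h5 : ((d : ℝ) ^ δ) ^ K = (d : ℝ) ^ (δ * K) := by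
            rw [← Real.rpow_natCast, ← Real.rpow_mul hd0.le]
          have h6 : (d : ℝ) ^ (1 + δ : ℝ) = (d : ℝ) ^ (3 / 4 : ℝ) * (d : ℝ) ^ (δ * K) := by
            rw [← Real.rpow_add hd0]
            congr 1
            rw [hδ]
            field_simp
            ring
          rw [h5, h6]
          have : 0 < (d : ℝ) ^ (δ * K) := Real.rpow_pos_of_pos hd0 _
          have : 0 < (d : ℝ) ^ (3 / 4 : ℝ) := Real.rpow_pos_of_pos hd0 _
          field_simp
        rw [h3, h4, div_pow] at h2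
        have h7 : w ^ K = w ^ (K - 1) * w := by
          rw [← pow_succ]
          congr 1
          omega
        rw [h7, div_le_div_iff₀ (by positivity) hwp] at h2
        have h8 : s ^ K * w ≤ (w ^ (K - 1) * s') * w := by
          calc s ^ K * w ≤ s' * (w ^ (K - 1) * w) := h2
            _ = (w ^ (K - 1) * s') * w := by ring
        exact le_of_mul_le_mul_right h8 hwp
    have hJ2 : s ^ K ≤ W ^ (K - 1) * s' := hJ.trans (by gcongr)
    have h2 : (1 + s) ^ K ≤ 2 ^ K * (1 + s ^ K) := by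
      rcases le_total s 1 with h | h
      · calc (1 + s) ^ K ≤ 2 ^ K := pow_le_pow_left₀ (by linarith) (by linarith) K
          _ = 2 ^ K * 1 := (mul_one _).symm
          _ ≤ 2 ^ K * (1 + s ^ K) := by
              apply mul_le_mul_of_nonneg_left _ (by positivity)
              have : 0 ≤ s ^ K := by positivity
              linarith
      · calc (1 + s) ^ K ≤ (2 * s) ^ K := pow_le_pow_left₀ (by linarith) (by linarith) K
          _ = 2 ^ K * s ^ K := mul_pow _ _ _
          _ ≤ 2 ^ K * (1 + s ^ K) := by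
              apply mul_le_mul_of_nonneg_left _ (by positivity)
              linarith
    calc ((n : ℝ) / n.totient) ^ K ≤ (2 * (1 + s)) ^ K := pow_le_pow_left₀ (by positivity) h1 K
      _ = 2 ^ K * (1 + s) ^ K := mul_pow _ _ _
      _ ≤ 2 ^ K * (2 ^ K * (1 + s ^ K)) := by gcongr
      _ = 4 ^ K * (1 + s ^ K) := by
          rw [← mul_assoc, ← mul_pow]
          norm_num
      _ ≤ 4 ^ K * (1 + W ^ (K - 1) * s') := by gcongr
      _ ≤ 4 ^ K * ((1 + W ^ (K - 1)) * (1 + s')) := by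
          apply mul_le_mul_of_nonneg_left _ (by positivity)
          have : 0 ≤ W ^ (K - 1) := by positivity
          nlinarith
      _ = 4 ^ K * (1 + W ^ (K - 1)) * (1 + s') := by ring

/-- the moments of `|a - p| / φ(|a - p|)` over the primes `p ≤ M` are bounded -/
theorem sum_ratio_pow (K : ℕ) : ∃ C : ℝ, 0 < C ∧ ∀ J M : ℕ, 16 * (J + 1) ^ 2 ≤ M → ∀ a : ℤ, a.natAbs ≤ J * M →
    ∑ p ∈ (Icc 1 M).filter (fun p : ℕ => p.Prime ∧ (p : ℤ) ≠ a),
      (((a - p).natAbs : ℝ) / ((a - p).natAbs.totient : ℝ)) ^ K ≤ C * (M / Real.log M) := by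
  classical
  obtain ⟨Ck, hCk, hpt⟩ := pow_trunc K
  set S : ℝ := ∑' d : ℕ, (1 : ℝ) / (d : ℝ) ^ (5 / 4 : ℝ) with hS
  have hS0 : 0 ≤ S := tsum_nonneg fun d => by positivity
  refine ⟨Ck * (44 + 704 * S), by positivity, fun J M hM a ha => ?_⟩
  have hM16 : 16 ≤ M := by nlinarith
  have hMr : (16 : ℝ) ≤ M := by exact_mod_cast hM16
  have hM0 : (0 : ℝ) < M := by linarith
  have hlog : 0 < Real.log M := Real.log_pos (by linarith)
  obtain ⟨D, hD⟩ : ∃ D : ℕ, D = Nat.sqrt ((J + 1) * M) + 1 := ⟨_, rfl⟩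
  have hD1 : 1 ≤ D := by omega
  have hDD : (J + 1) * M ≤ D * D := by
    rw [hD]
    exact (Nat.lt_succ_sqrt _).le
  have hD4 : D * D ≤ 4 * ((J + 1) * M) := by
    have h1 := Nat.sqrt_le ((J + 1) * M)
    have h2 : 1 ≤ Nat.sqrt ((J + 1) * M) := by
      rw [Nat.le_sqrt]
      nlinarith
    rw [hD]
    nlinarith
  have hDM4 : (D * D) * (D * D) ≤ M ^ 3 := by
    calc (D * D) * (D * D) ≤ (4 * ((J + 1) * M)) * (4 * ((J + 1) * M)) := Nat.mul_le_mul hD4 hD4
      _ = (16 * (J + 1) ^ 2) * M ^ 2 := by ring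
      _ ≤ M * M ^ 2 := Nat.mul_le_mul_right _ hM
      _ = M ^ 3 := by ring
  have hDM : D ≤ M := by
    by_contra hcon
    have h1 : M + 1 ≤ D := by omega
    have h2 : (M + 1) ^ 4 ≤ (D * D) * (D * D) := by
      calc (M + 1) ^ 4 ≤ D ^ 4 := Nat.pow_le_pow_left h1 4
        _ = (D * D) * (D * D) := by ring
    have h3 : M ^ 3 < (M + 1) ^ 4 := by
      calc M ^ 3 < (M + 1) ^ 3 := Nat.pow_lt_pow_left (by omega) (by norm_num)
        _ ≤ (M + 1) ^ 4 := Nat.pow_le_pow_right (by omega) (by norm_num)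
    omega
  have hDr : (0 : ℝ) < D := by exact_mod_cast hD1
  have hlogMD : Real.log M / 4 ≤ Real.log (M / D) := by
    have h1 : (M : ℝ) ≤ (M / D : ℝ) ^ 4 := by
      rw [div_pow, le_div_iff₀ (by positivity)]
      have h2 : ((D * D * (D * D) : ℕ) : ℝ) ≤ ((M ^ 3 : ℕ) : ℝ) := by exact_mod_cast hDM4
      push_cast at h2
      nlinarith
    have h2 := Real.log_le_log hM0 h1
    rw [Real.log_pow] at h2
    push_cast at h2
    linarith
  set PS := (Icc 1 M).filter (fun p : ℕ => p.Prime ∧ (p : ℤ) ≠ a) with hPS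
  have hz : ∀ p ∈ PS, (a - p).natAbs ≠ 0 ∧ (a - p).natAbs ≤ D * D := by
    intro p hp
    rw [hPS, mem_filter, mem_Icc] at hp
    obtain ⟨⟨hp1, hp2⟩, hp3, hp4⟩ := hp
    refine ⟨by omega, ?_⟩
    have h1 : (a - p).natAbs ≤ a.natAbs + p := by omega
    calc (a - p).natAbs ≤ a.natAbs + p := h1
      _ ≤ J * M + M := by omega
      _ = (J + 1) * M := by ring
      _ ≤ D * D := hDD
  -- the number of primes
  have hcard : (PS.card : ℝ) ≤ 44 * (M / Real.log M) := by
    have h1 : PS.card ≤ ((Icc 1 M).filter (fun p => p.Prime ∧ p % 1 = 0)).card := by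
      apply card_le_card
      intro p hp
      rw [hPS, mem_filter] at hp
      rw [mem_filter]
      exact ⟨hp.1, hp.2.1, Nat.mod_one p⟩
    have h2 := class_card M 1 0 one_pos (by omega)
    rw [Nat.totient_one, Nat.div_one] at h2
    have h3 : (PS.card : ℝ) ≤ ((Icc 1 M).filter (fun p => p.Prime ∧ p % 1 = 0)).card := by exact_mod_cast h1
    refine h3.trans (h2.trans ?_)
    push_cast
    rw [div_one, mul_one, ← mul_div_assoc]
    have h4 : Real.log M ≤ Real.log (M + 1) := Real.log_le_log hM0 (by linarith)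
    rw [div_le_div_iff₀ (by linarith) hlog]
    have h5 : 22 * ((M : ℝ) + 1) ≤ 44 * M := by linarith
    calc 22 * ((M : ℝ) + 1) * Real.log M ≤ 44 * M * Real.log M := by gcongr
      _ ≤ 44 * M * Real.log (M + 1) := by gcongr
  -- primes in a class
  have hclass : ∀ d ∈ Icc 1 D, ((PS.filter (fun p : ℕ => d ∣ (a - p).natAbs)).card : ℝ) * (1 / (d : ℝ) ^ (3 / 4 : ℝ)) ≤
      704 * (1 / (d : ℝ) ^ (5 / 4 : ℝ)) * (M / Real.log M) := by
    intro d hd
    rw [mem_Icc] at hd
    have hd0 : (0 : ℝ) < d := by exact_mod_cast hd.1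
    have hdM : d ≤ M := hd.2.trans hDM
    have h1 : PS.filter (fun p : ℕ => d ∣ (a - p).natAbs) ⊆
        (Icc 1 M).filter (fun p => p.Prime ∧ p % d = (a % d).toNat) := by
      intro p hp
      rw [mem_filter, hPS, mem_filter] at hp
      obtain ⟨⟨hp1, hp2, -⟩, hp3⟩ := hp
      rw [mem_filter]
      refine ⟨hp1, hp2, ?_⟩
      have h2 : (d : ℤ) ∣ a - p := Int.natCast_dvd.2 hp3
      have h3 : a % d = (p : ℤ) % d := (Int.emod_emod_of_dvd a (dvd_refl _)).symm.trans
        (by rw [Int.emod_emod_of_dvd a (dvd_refl _)]; exact (Int.emod_emod_of_dvd a (dvd_refl _)).symm.trans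
              (by rw [Int.emod_emod_of_dvd a (dvd_refl _)]; exact Int.emod_eq_emod_iff_emod_sub_eq_zero.2 (Int.emod_eq_zero_of_dvd h2)))
      rw [h3]
      have h4 : (p : ℤ) % d = ((p % d : ℕ) : ℤ) := by push_cast; rfl
      rw [h4, Int.toNat_natCast]
    have h2 : ((PS.filter (fun p : ℕ => d ∣ (a - p).natAbs)).card : ℝ) ≤
        ((Icc 1 M).filter (fun p => p.Prime ∧ p % d = (a % d).toNat)).card := by
      exact_mod_cast card_le_card h1
    have h3 := class_card M d (a % d).toNat hd.1 hdM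
    have hN1 : ((M / d + 1 : ℕ) : ℝ) ≤ 2 * (M / d) := by
      have h4 : ((M / d : ℕ) : ℝ) ≤ M / d := Nat.cast_div_le
      have h5 : (1 : ℝ) ≤ M / d := by
        rw [le_div_iff₀ hd0, one_mul]
        exact_mod_cast hdM
      push_cast
      linarith
    have hN2 : (M : ℝ) / D ≤ ((M / d + 1 : ℕ) : ℝ) := by
      have h4 : (M : ℝ) / D ≤ M / d := by
        apply div_le_div_of_nonneg_left hM0.le hd0
        exact_mod_cast hd.2
      have h5 : (M : ℝ) / d < ((M / d + 1 : ℕ) : ℝ) := by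
        rw [div_lt_iff₀ hd0]
        have := Nat.lt_mul_div_succ M hd.1
        have h6 : M < (M / d + 1) * d := by
          rw [mul_comm]
          exact this
        exact_mod_cast h6
      linarith
    have hlN : Real.log M / 4 ≤ Real.log ((M / d + 1 : ℕ) : ℝ) :=
      hlogMD.trans (Real.log_le_log (by positivity) hN2)
    have hφ : (0 : ℝ) < d.totient := by exact_mod_cast Nat.totient_pos.2 hd.1
    have hr0 : (0 : ℝ) ≤ (d : ℝ) / d.totient := by positivity
    have hr := ratio_sqrt d hd.1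
    have h4 : ((PS.filter (fun p : ℕ => d ∣ (a - p).natAbs)).card : ℝ) ≤
        22 * (4 * Real.sqrt d) * (2 * (M / d)) / (Real.log M / 4) := by
      refine h2.trans (h3.trans ?_)
      apply div_le_div₀ (by positivity) _ (by positivity) hlN
      gcongr
    have h5 : (d : ℝ) * (d : ℝ) ^ (3 / 4 : ℝ) = (d : ℝ) ^ (5 / 4 : ℝ) * Real.sqrt d := by
      rw [Real.sqrt_eq_rpow, ← Real.rpow_one_add' hd0.le (by norm_num), ← Real.rpow_add hd0]
      norm_num
    have hd34 : 0 < (d : ℝ) ^ (3 / 4 : ℝ) := Real.rpow_pos_of_pos hd0 _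
    have hd54 : 0 < (d : ℝ) ^ (5 / 4 : ℝ) := Real.rpow_pos_of_pos hd0 _
    have hsq : 0 < Real.sqrt d := Real.sqrt_pos.2 hd0
    have hsq2 : Real.sqrt d * Real.sqrt d = d := Real.mul_self_sqrt hd0.le
    calc ((PS.filter (fun p : ℕ => d ∣ (a - p).natAbs)).card : ℝ) * (1 / (d : ℝ) ^ (3 / 4 : ℝ)) ≤
        22 * (4 * Real.sqrt d) * (2 * (M / d)) / (Real.log M / 4) * (1 / (d : ℝ) ^ (3 / 4 : ℝ)) := by gcongr
      _ = 704 * (Real.sqrt d / (d * (d : ℝ) ^ (3 / 4 : ℝ))) * (M / Real.log M) := by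
          field_simp
          ring
      _ = 704 * (1 / (d : ℝ) ^ (5 / 4 : ℝ)) * (M / Real.log M) := by
          rw [h5]
          congr 2
          rw [div_eq_div_iff (by positivity) (by positivity)]
          ring
  have hQ0 : 0 ≤ (M : ℝ) / Real.log M := by positivity
  calc ∑ p ∈ PS, (((a - p).natAbs : ℝ) / ((a - p).natAbs.totient : ℝ)) ^ K ≤
      ∑ p ∈ PS, Ck * (1 + ∑ d ∈ (Icc 1 D).filter (fun d => d ∣ (a - p).natAbs), (1 : ℝ) / (d : ℝ) ^ (3 / 4 : ℝ)) := by
        apply sum_le_sum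
        intro p hp
        obtain ⟨h1, h2⟩ := hz p hp
        exact hpt _ D h1 hD1 h2
    _ = Ck * (PS.card + ∑ d ∈ Icc 1 D, ((PS.filter (fun p : ℕ => d ∣ (a - p).natAbs)).card : ℝ) *
          (1 / (d : ℝ) ^ (3 / 4 : ℝ))) := by
        rw [← mul_sum, sum_add_distrib, sum_const, nsmul_eq_mul, mul_one]
        congr 2
        simp_rw [sum_filter]
        rw [sum_comm]
        apply sum_congr rfl
        intro d _
        rw [← sum_filter, sum_const, nsmul_eq_mul]
    _ ≤ Ck * (44 * (M / Real.log M) + 704 * S * (M / Real.log M)) := by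
        apply mul_le_mul_of_nonneg_left _ hCk.le
        apply add_le_add hcard
        calc ∑ d ∈ Icc 1 D, ((PS.filter (fun p : ℕ => d ∣ (a - p).natAbs)).card : ℝ) * (1 / (d : ℝ) ^ (3 / 4 : ℝ)) ≤
            ∑ d ∈ Icc 1 D, 704 * (1 / (d : ℝ) ^ (5 / 4 : ℝ)) * (M / Real.log M) := sum_le_sum hclass
          _ = 704 * (∑ d ∈ Icc 1 D, 1 / (d : ℝ) ^ (5 / 4 : ℝ)) * (M / Real.log M) := by
              rw [mul_sum, sum_mul]
          _ ≤ 704 * S * (M / Real.log M) := by
              apply mul_le_mul_of_nonneg_right _ hQ0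
              apply mul_le_mul_of_nonneg_left _ (by norm_num)
              exact (Real.summable_one_div_nat_rpow.2 (by norm_num)).sum_le_tsum _ (fun d _ => by positivity)
    _ = Ck * (44 + 704 * S) * (M / Real.log M) := by ring

end Pool.Agent.Q145.GB
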