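import Pool.Agent.Q145.GB.Wt

set_option autoImplicit false

/-! # The mean value of `j (k - j) / (φ(j) φ(k - j))` over `0 < j < k` -/

namespace Pool.Agent.Q145.GB

open Finset

theorem sq_sum_div (k : ℕ) : ∃ C : ℝ, C = (∑' d : ℕ, (1 : ℝ) / (d : ℝ) ^ (3 / 2 : ℝ)) ^ 2 ∧
    ∑ j ∈ Icc 1 k, (∑ d ∈ j.divisors, (1 : ℝ) / d) ^ 2 ≤ C * k := by
  classical
  refine ⟨_, rfl, ?_⟩
  set S : ℝ := ∑' d : ℕ, (1 : ℝ) / (d : ℝ) ^ (3 / 2 : ℝ) with hS
  have hk0 : (0 : ℝ) ≤ k := Nat.cast_nonneg k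
  have h1 : ∀ j ∈ Icc 1 k, (∑ d ∈ j.divisors, (1 : ℝ) / d) ^ 2 =
      ∑ d ∈ Icc 1 k, ∑ e ∈ Icc 1 k, if d ∣ j ∧ e ∣ j then (1 : ℝ) / d * (1 / e) else 0 := by
    intro j hj
    rw [mem_Icc] at hj
    have hdiv : j.divisors = (Icc 1 k).filter (fun d => d ∣ j) := by
      ext d
      rw [Nat.mem_divisors, mem_filter, mem_Icc]
      constructor
      · rintro ⟨h, _⟩
        exact ⟨⟨Nat.pos_of_dvd_of_pos h (by omega), (Nat.le_of_dvd (by omega) h).trans hj.2⟩, h⟩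
      · rintro ⟨_, h⟩
        exact ⟨h, by omega⟩
    rw [sq, hdiv, sum_filter, sum_mul_sum]
    apply sum_congr rfl
    intro d _
    apply sum_congr rfl
    intro e _
    by_cases hd : d ∣ j
    · by_cases he : e ∣ j
      · simp [hd, he]
      · simp [hd, he]
    · simp [hd]
  rw [sum_congr rfl h1, sum_comm]
  have h2 : ∀ d ∈ Icc 1 k, ∑ j ∈ Icc 1 k, ∑ e ∈ Icc 1 k, (if d ∣ j ∧ e ∣ j then (1 : ℝ) / d * (1 / e) else 0) ≤
      ∑ e ∈ Icc 1 k, (1 / (d : ℝ) ^ (3 / 2 : ℝ)) * (1 / (e : ℝ) ^ (3 / 2 : ℝ)) * k := by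
    intro d hd
    rw [mem_Icc] at hd
    rw [sum_comm]
    apply sum_le_sum
    intro e he
    rw [mem_Icc] at he
    have hd0 : (0 : ℝ) < d := by exact_mod_cast hd.1
    have he0 : (0 : ℝ) < e := by exact_mod_cast he.1
    rw [← sum_filter, sum_const, nsmul_eq_mul]
    set l := Nat.lcm d e with hl
    have hl0 : 0 < l := Nat.lcm_pos hd.1 he.1
    have hc1 : ((Icc 1 k).filter (fun j => d ∣ j ∧ e ∣ j)).card ≤ k / l := by
      have h3 : (Icc 1 k).filter (fun j => d ∣ j ∧ e ∣ j) ⊆ (Icc 1 (k / l)).image (fun i => l * i) := by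
        intro j hj
        rw [mem_filter, mem_Icc] at hj
        obtain ⟨⟨h4, h5⟩, h6, h7⟩ := hj
        obtain ⟨i, hi⟩ := Nat.lcm_dvd h6 h7
        rw [mem_image]
        refine ⟨i, ?_, by rw [hl]; exact hi.symm⟩
        rw [mem_Icc]
        constructor
        · rcases Nat.eq_zero_or_pos i with h | h
          · rw [h, mul_zero] at hi; omega
          · exact h
        · rw [Nat.le_div_iff_mul_le hl0, mul_comm]
          calc l * i = j := by rw [hl]; exact hi.symm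
            _ ≤ k := h5
      refine (card_le_card h3).trans (card_image_le.trans ?_)
      rw [Nat.card_Icc, Nat.add_sub_cancel]
    have hc2 : (((Icc 1 k).filter (fun j => d ∣ j ∧ e ∣ j)).card : ℝ) ≤ k / l := by
      have h3 : (((Icc 1 k).filter (fun j => d ∣ j ∧ e ∣ j)).card : ℝ) ≤ ((k / l : ℕ) : ℝ) := by
        exact_mod_cast hc1
      exact h3.trans Nat.cast_div_le
    -- `l ≥ √(d e)`
    have hl2 : Real.sqrt d * Real.sqrt e ≤ l := by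
      rw [← Real.sqrt_mul hd0.le]
      apply Real.sqrt_le_iff.2
      refine ⟨Nat.cast_nonneg _, ?_⟩
      have h3 : d ≤ l := Nat.le_of_dvd hl0 (Nat.dvd_lcm_left d e)
      have h4 : e ≤ l := Nat.le_of_dvd hl0 (Nat.dvd_lcm_right d e)
      have h5 : d * e ≤ l ^ 2 := by
        rw [sq]
        exact Nat.mul_le_mul h3 h4
      exact_mod_cast h5
    have hsd : 0 < Real.sqrt d := Real.sqrt_pos.2 hd0
    have hse : 0 < Real.sqrt e := Real.sqrt_pos.2 he0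
    have hl0' : (0 : ℝ) < l := by exact_mod_cast hl0
    have hpd : (d : ℝ) ^ (3 / 2 : ℝ) = d * Real.sqrt d := by
      rw [Real.sqrt_eq_rpow, ← Real.rpow_one_add' hd0.le (by norm_num)]
      norm_num
    have hpe : (e : ℝ) ^ (3 / 2 : ℝ) = e * Real.sqrt e := by
      rw [Real.sqrt_eq_rpow, ← Real.rpow_one_add' he0.le (by norm_num)]
      norm_num
    rw [hpd, hpe]
    calc (((Icc 1 k).filter (fun j => d ∣ j ∧ e ∣ j)).card : ℝ) * (1 / d * (1 / e)) ≤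
        (k / l) * (1 / d * (1 / e)) := by gcongr
      _ ≤ (k / (Real.sqrt d * Real.sqrt e)) * (1 / d * (1 / e)) := by gcongr
      _ = 1 / (d * Real.sqrt d) * (1 / (e * Real.sqrt e)) * k := by
          field_simp
  refine (sum_le_sum h2).trans ?_
  have h3 : ∀ d ∈ Icc 1 k, ∑ e ∈ Icc 1 k, (1 / (d : ℝ) ^ (3 / 2 : ℝ)) * (1 / (e : ℝ) ^ (3 / 2 : ℝ)) * k =
      (1 / (d : ℝ) ^ (3 / 2 : ℝ)) * ((∑ e ∈ Icc 1 k, (1 / (e : ℝ) ^ (3 / 2 : ℝ))) * k) := by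
    intro d _
    rw [sum_mul, mul_sum]
    apply sum_congr rfl
    intro e _
    ring
  rw [sum_congr rfl h3, ← sum_mul]
  have h4 : ∑ e ∈ Icc 1 k, (1 / (e : ℝ) ^ (3 / 2 : ℝ)) ≤ S := summ.sum_le_tsum _ (fun d _ => by positivity)
  have h5 : 0 ≤ ∑ e ∈ Icc 1 k, (1 / (e : ℝ) ^ (3 / 2 : ℝ)) := sum_nonneg fun _ _ => by positivity
  calc (∑ d ∈ Icc 1 k, (1 / (d : ℝ) ^ (3 / 2 : ℝ))) * ((∑ e ∈ Icc 1 k, (1 / (e : ℝ) ^ (3 / 2 : ℝ))) * k) ≤
      S * (S * k) := by gcongr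
    _ = S ^ 2 * k := by ring

/-- the mean square of `j / φ(j)` -/
theorem sum_sq : ∃ C : ℝ, 0 < C ∧ ∀ k : ℕ, ∑ j ∈ Icc 1 k, ((j : ℝ) / j.totient) ^ 2 ≤ C * k := by
  refine ⟨4 * (∑' d : ℕ, (1 : ℝ) / (d : ℝ) ^ (3 / 2 : ℝ)) ^ 2 + 1, by positivity, fun k => ?_⟩
  obtain ⟨C, hC, h⟩ := sq_sum_div k
  rw [← hC]
  have hk0 : (0 : ℝ) ≤ k := Nat.cast_nonneg k
  calc ∑ j ∈ Icc 1 k, ((j : ℝ) / j.totient) ^ 2 ≤ ∑ j ∈ Icc 1 k, 4 * (∑ d ∈ j.divisors, (1 : ℝ) / d) ^ 2 := by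
        apply sum_le_sum
        intro j hj
        rw [mem_Icc] at hj
        have h1 := ratio_le j (by omega)
        have h2 : (0 : ℝ) ≤ (j : ℝ) / j.totient := by positivity
        calc ((j : ℝ) / j.totient) ^ 2 ≤ (2 * ∑ d ∈ j.divisors, (1 : ℝ) / d) ^ 2 := by gcongr
          _ = _ := by ring
    _ = 4 * ∑ j ∈ Icc 1 k, (∑ d ∈ j.divisors, (1 : ℝ) / d) ^ 2 := by rw [mul_sum]
    _ ≤ 4 * (C * k) := by gcongr
    _ ≤ (4 * C + 1) * k := by nlinarith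

/-- the weights of the two excluded points `0` and `k` -/
theorem sum_two : ∃ C : ℝ, 0 < C ∧ ∀ k : ℕ, 1 ≤ k →
    ∑ j ∈ Icc 1 (k - 1), ((j : ℝ) / j.totient) * (((k - j : ℕ) : ℝ) / (k - j).totient) ≤ C * k := by
  obtain ⟨C, hC, h⟩ := sum_sq
  refine ⟨C, hC, fun k hk => ?_⟩
  have h1 : ∀ j ∈ Icc 1 (k - 1), ((j : ℝ) / j.totient) * (((k - j : ℕ) : ℝ) / (k - j).totient) ≤
      ((j : ℝ) / j.totient) ^ 2 / 2 + (((k - j : ℕ) : ℝ) / (k - j).totient) ^ 2 / 2 := by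
    intro j _
    nlinarith [sq_nonneg (((j : ℝ) / j.totient) - (((k - j : ℕ) : ℝ) / (k - j).totient))]
  refine (sum_le_sum h1).trans ?_
  rw [sum_add_distrib]
  have h2 : ∑ j ∈ Icc 1 (k - 1), (((k - j : ℕ) : ℝ) / (k - j).totient) ^ 2 / 2 =
      ∑ j ∈ Icc 1 (k - 1), ((j : ℝ) / j.totient) ^ 2 / 2 := by
    apply sum_bij' (fun j _ => k - j) (fun j _ => k - j)
    · intro j hj
      rw [mem_Icc] at hj ⊢
      omega
    · intro j hj
      rw [mem_Icc] at hj ⊢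
      omega
    · intro j hj
      rw [mem_Icc] at hj
      omega
    · intro j hj
      rw [mem_Icc] at hj
      omega
    · intro j _
      rfl
  rw [h2, ← sum_add_distrib]
  have h3 : ∑ j ∈ Icc 1 (k - 1), (((j : ℝ) / j.totient) ^ 2 / 2 + ((j : ℝ) / j.totient) ^ 2 / 2) =
      ∑ j ∈ Icc 1 (k - 1), ((j : ℝ) / j.totient) ^ 2 := by
    apply sum_congr rfl
    intro j _
    ring
  rw [h3]
  refine (h (k - 1)).trans ?_
  have h4 : ((k - 1 : ℕ) : ℝ) ≤ k := by exact_mod_cast Nat.sub_le k 1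
  gcongr

end Pool.Agent.Q145.GB
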