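import Pool.Agent.TH915.UC.BT

set_option autoImplicit false

/-! # The mean value of `|a - p| / φ(|a - p|)` over the primes `p` -/

namespace Pool.Agent.Q145.GB

open Finset

theorem prod_Icc (K : ℕ) (hK : 1 ≤ K) :
    ∏ k ∈ Icc 2 K, (1 - 1 / (k : ℝ) ^ 2) = ((K : ℝ) + 1) / (2 * K) := by
  induction K, hK using Nat.le_induction with
  | base => norm_num
  | succ K hK ih =>
    have e : Icc 2 (K + 1) = insert (K + 1) (Icc 2 K) := by
      ext x
      simp only [mem_Icc, mem_insert]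
      omega
    have hK0 : (0 : ℝ) < K := by exact_mod_cast hK
    rw [e, prod_insert (by simp), ih]
    push_cast
    field_simp
    ring

theorem prod_sq_ge (s : Finset ℕ) (hs : ∀ p ∈ s, 2 ≤ p) : (1 : ℝ) / 2 ≤ ∏ p ∈ s, (1 - 1 / (p : ℝ) ^ 2) := by
  classical
  obtain ⟨K, hK⟩ : ∃ K : ℕ, K = s.sup id + 1 := ⟨_, rfl⟩
  have hK1 : 1 ≤ K := by omega
  have hsub : s ⊆ Icc 2 K := by
    intro p hp
    rw [mem_Icc]
    have h1 : id p ≤ s.sup id := Finset.le_sup hp
    have h2 : id p = p := rfl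
    exact ⟨hs p hp, by omega⟩
  have hf : ∀ k ∈ Icc 2 K, (0 : ℝ) ≤ 1 - 1 / (k : ℝ) ^ 2 ∧ 1 - 1 / (k : ℝ) ^ 2 ≤ 1 := by
    intro k hk
    have h2 : (2 : ℝ) ≤ k := by exact_mod_cast (mem_Icc.1 hk).1
    have h3 : 1 / (k : ℝ) ^ 2 ≤ 1 := by
      rw [div_le_one (by positivity)]
      nlinarith
    have h4 : 0 ≤ 1 / (k : ℝ) ^ 2 := by positivity
    constructor <;> linarith
  have h1 := prod_Icc K hK1
  have h2 : ∏ k ∈ Icc 2 K, (1 - 1 / (k : ℝ) ^ 2) ≤ ∏ p ∈ s, (1 - 1 / (p : ℝ) ^ 2) := by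
    rw [← prod_sdiff hsub]
    have h3 : ∏ k ∈ Icc 2 K \ s, (1 - 1 / (k : ℝ) ^ 2) ≤ 1 :=
      prod_le_one (fun k hk => (hf k (mem_sdiff.1 hk).1).1) (fun k hk => (hf k (mem_sdiff.1 hk).1).2)
    have h4 : 0 ≤ ∏ p ∈ s, (1 - 1 / (p : ℝ) ^ 2) := prod_nonneg fun k hk => (hf k (hsub hk)).1
    nlinarith
  refine le_trans ?_ h2
  rw [h1]
  have hK0 : (0 : ℝ) < K := by exact_mod_cast hK1
  rw [div_le_div_iff₀ (by norm_num) (by positivity)]
  linarith

theorem prod_le_divisors (n : ℕ) (hn : n ≠ 0) :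
    ∏ p ∈ n.primeFactors, (1 + 1 / (p : ℝ)) ≤ ∑ d ∈ n.divisors, (1 : ℝ) / d := by
  classical
  rw [prod_one_add]
  have hinj : Set.InjOn (fun t : Finset ℕ => ∏ p ∈ t, p) (n.primeFactors.powerset : Finset (Finset ℕ)) := by
    intro s hs t ht h
    have hs' : ∀ p ∈ s, p.Prime := fun p hp => Nat.prime_of_mem_primeFactors (mem_powerset.1 (mem_coe.1 hs) hp)
    have ht' : ∀ p ∈ t, p.Prime := fun p hp => Nat.prime_of_mem_primeFactors (mem_powerset.1 (mem_coe.1 ht) hp)
    have h1 := Nat.primeFactors_prod hs'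
    have h2 := Nat.primeFactors_prod ht'
    have h' : ∏ p ∈ s, p = ∏ p ∈ t, p := h
    rw [← h1, ← h2, h']
  have h1 : ∑ t ∈ n.primeFactors.powerset, ∏ p ∈ t, (1 / (p : ℝ)) =
      ∑ d ∈ n.primeFactors.powerset.image (fun t : Finset ℕ => ∏ p ∈ t, p), (1 : ℝ) / d := by
    rw [sum_image hinj]
    apply sum_congr rfl
    intro t _
    push_cast
    rw [prod_div_distrib, prod_const_one]
  rw [h1]
  apply sum_le_sum_of_subset_of_nonneg
  · intro d hd
    obtain ⟨t, ht, rfl⟩ := mem_image.1 hd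
    rw [Nat.mem_divisors]
    exact ⟨(prod_dvd_prod_of_subset _ _ _ (mem_powerset.1 ht)).trans (Nat.prod_primeFactors_dvd n), hn⟩
  · intro d _ _
    positivity

theorem ratio_le (n : ℕ) (hn : n ≠ 0) : (n : ℝ) / n.totient ≤ 2 * ∑ d ∈ n.divisors, (1 : ℝ) / d := by
  have h1 : (n.totient : ℝ) = n * ∏ p ∈ n.primeFactors, (1 - (1 : ℝ) / p) := by
    have := Nat.totient_eq_mul_prod_factors n
    have h2 : ((n.totient : ℚ) : ℝ) = ((n * ∏ p ∈ n.primeFactors, (1 - (p : ℚ)⁻¹) : ℚ) : ℝ) := by rw [this]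
    push_cast at h2
    rw [h2]
    simp only [one_div]
  have hn0 : (0 : ℝ) < n := by exact_mod_cast Nat.pos_of_ne_zero hn
  have hp : ∀ p ∈ n.primeFactors, (2 : ℝ) ≤ p := fun p hp => by
    exact_mod_cast (Nat.prime_of_mem_primeFactors hp).two_le
  set P := ∏ p ∈ n.primeFactors, (1 - (1 : ℝ) / p) with hP
  set Q := ∏ p ∈ n.primeFactors, (1 + (1 : ℝ) / p) with hQ
  have hP0 : 0 < P := by
    rw [hP]
    apply prod_pos
    intro p hp'
    have := hp p hp'
    have : (1 : ℝ) / p ≤ 1 / 2 := by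
      apply div_le_div_of_nonneg_left (by norm_num) (by norm_num) this
    linarith
  have hPQ : 1 / 2 ≤ P * Q := by
    rw [hP, hQ, ← prod_mul_distrib]
    refine (prod_sq_ge n.primeFactors (fun p hp => (Nat.prime_of_mem_primeFactors hp).two_le)).trans
      (le_of_eq ?_)
    apply prod_congr rfl
    intro p _
    ring
  have hQd : Q ≤ ∑ d ∈ n.divisors, (1 : ℝ) / d := prod_le_divisors n hn
  rw [h1]
  have e : (n : ℝ) / (n * P) = 1 / P := by field_simp
  rw [e, div_le_iff₀ hP0]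
  nlinarith

theorem ratio_le_trunc (n D : ℕ) (hn : n ≠ 0) (hD : 1 ≤ D) (hnD : n ≤ D * D) :
    (n : ℝ) / n.totient ≤ 2 * (1 + ∑ d ∈ (Icc 1 D).filter (fun d => d ∣ n), (1 : ℝ) / d) := by
  classical
  refine (ratio_le n hn).trans (mul_le_mul_of_nonneg_left ?_ (by norm_num))
  rw [← sum_filter_add_sum_filter_not n.divisors (fun d => d ≤ D)]
  have h1 : n.divisors.filter (fun d => d ≤ D) ⊆ (Icc 1 D).filter (fun d => d ∣ n) := by
    intro d hd
    rw [mem_filter, Nat.mem_divisors] at hd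
    rw [mem_filter, mem_Icc]
    exact ⟨⟨Nat.pos_of_dvd_of_pos hd.1.1 (Nat.pos_of_ne_zero hn), hd.2⟩, hd.1.1⟩
  have h2 : ∑ d ∈ n.divisors.filter (fun d => d ≤ D), (1 : ℝ) / d ≤
      ∑ d ∈ (Icc 1 D).filter (fun d => d ∣ n), (1 : ℝ) / d :=
    sum_le_sum_of_subset_of_nonneg h1 fun _ _ _ => by positivity
  have h3 : (n.divisors.filter (fun d => ¬ d ≤ D)).card ≤ D := by
    have h4 : (n.divisors.filter (fun d => ¬ d ≤ D)).card ≤ (Icc 1 D).card := by
      apply card_le_card_of_injOn (fun d => n / d)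
      · intro d hd
        rw [mem_coe, mem_filter, Nat.mem_divisors] at hd
        obtain ⟨⟨⟨e, he⟩, _⟩, hd2⟩ := hd
        have hd0 : 0 < d := by omega
        have he2 : n / d = e := by rw [he]; exact Nat.mul_div_cancel_left e hd0
        rw [mem_coe, mem_Icc]
        change 1 ≤ n / d ∧ n / d ≤ D
        rw [he2]
        constructor
        · rcases Nat.eq_zero_or_pos e with h | h
          · subst h; omega
          · exact h
        · by_contra hcon
          have h5 : (D + 1) * (D + 1) ≤ d * e := Nat.mul_le_mul (by omega) (by omega)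
          nlinarith
      · intro d hd d' hd' h
        rw [mem_coe, mem_filter, Nat.mem_divisors] at hd hd'
        have h' : n / d = n / d' := h
        have e1 : d * (n / d) = n := Nat.mul_div_cancel' hd.1.1
        have e2 : d' * (n / d') = n := Nat.mul_div_cancel' hd'.1.1
        rw [← h'] at e2
        have h0 : 0 < n / d := by
          rcases Nat.eq_zero_or_pos (n / d) with h | h
          · rw [h, mul_zero] at e1; omega
          · exact h
        exact Nat.eq_of_mul_eq_mul_right h0 (e1.trans e2.symm)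
    rw [Nat.card_Icc] at h4
    omega
  have h4 : ∑ d ∈ n.divisors.filter (fun d => ¬ d ≤ D), (1 : ℝ) / d ≤ 1 := by
    have hD0 : (0 : ℝ) < D := by exact_mod_cast hD
    calc ∑ d ∈ n.divisors.filter (fun d => ¬ d ≤ D), (1 : ℝ) / d ≤
        ∑ d ∈ n.divisors.filter (fun d => ¬ d ≤ D), (1 : ℝ) / D := by
          apply sum_le_sum
          intro d hd
          have : D ≤ d := by
            have := (mem_filter.1 hd).2
            omega
          exact div_le_div_of_nonneg_left (by norm_num) hD0 (by exact_mod_cast this)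
      _ = (n.divisors.filter (fun d => ¬ d ≤ D)).card * (1 / (D : ℝ)) := by rw [sum_const, nsmul_eq_mul]
      _ ≤ D * (1 / (D : ℝ)) := by
          apply mul_le_mul_of_nonneg_right _ (by positivity)
          exact_mod_cast h3
      _ = 1 := by field_simp
  linarith

theorem one_add_log_le (n : ℕ) (hn : 1 ≤ n) : 1 + Real.log n ≤ 2 * Real.sqrt n := by
  have hn0 : (0 : ℝ) < n := by exact_mod_cast hn
  have hs : 0 < Real.sqrt n := Real.sqrt_pos.2 hn0
  have h1 := Real.log_le_sub_one_of_pos hs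
  have h2 : Real.log (Real.sqrt n) = Real.log n / 2 := Real.log_sqrt hn0.le
  have h3 : 1 ≤ Real.sqrt n := by
    rw [Real.one_le_sqrt]
    exact_mod_cast hn
  linarith

theorem ratio_sqrt (n : ℕ) (hn : 1 ≤ n) : (n : ℝ) / n.totient ≤ 4 * Real.sqrt n := by
  refine (ratio_le n (by omega)).trans ?_
  have h1 : ∑ d ∈ n.divisors, (1 : ℝ) / d ≤ ∑ d ∈ Icc 1 n, (1 : ℝ) / d := by
    apply sum_le_sum_of_subset_of_nonneg
    · intro d hd
      rw [Nat.mem_divisors] at hd
      rw [mem_Icc]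
      exact ⟨Nat.pos_of_dvd_of_pos hd.1 (by omega), Nat.le_of_dvd (by omega) hd.1⟩
    · intro _ _ _
      positivity
  have h2 : ∑ d ∈ Icc 1 n, (1 : ℝ) / d ≤ 1 + Real.log n := by
    have h3 := harmonic_le_one_add_log n
    rw [harmonic_eq_sum_Icc] at h3
    push_cast at h3
    simpa only [one_div] using h3
  have h3 := one_add_log_le n hn
  linarith

theorem class_card (M d r : ℕ) (hd : 0 < d) (hdM : d ≤ M) :
    (((Icc 1 M).filter (fun p => p.Prime ∧ p % d = r)).card : ℝ) ≤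
      22 * ((d : ℝ) / d.totient) * ((M / d + 1 : ℕ) : ℝ) / Real.log ((M / d + 1 : ℕ) : ℝ) := by
  classical
  have h0 : 1 ≤ M / d := Nat.div_pos hdM hd
  refine le_trans ?_ (Pool.Agent.TH915.UC.bt_gen r d (M / d + 1) hd (by omega))
  have h1 : ((Icc 1 M).filter (fun p => p.Prime ∧ p % d = r)).card ≤
      ((range (M / d + 1)).filter (fun k => (r + k * d).Prime)).card := by
    apply card_le_card_of_injOn (fun p => p / d)
    · intro p hp
      rw [mem_coe, mem_filter, mem_Icc] at hp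
      obtain ⟨⟨hp1, hp2⟩, hp3, hp4⟩ := hp
      rw [mem_coe, mem_filter, mem_range]
      have e : r + p / d * d = p := by
        have := Nat.mod_add_div p d
        rw [hp4] at this
        rw [mul_comm]
        exact this
      change p / d < M / d + 1 ∧ (r + p / d * d).Prime
      rw [e]
      exact ⟨Nat.lt_succ_of_le (Nat.div_le_div_right hp2), hp3⟩
    · intro p hp p' hp' h
      rw [mem_coe, mem_filter, mem_Icc] at hp hp'
      have h' : p / d = p' / d := h
      have e1 := Nat.mod_add_div p d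
      have e2 := Nat.mod_add_div p' d
      rw [hp.2.2] at e1
      rw [hp'.2.2, ← h'] at e2
      omega
  exact_mod_cast h1

theorem summ : Summable (fun d : ℕ => (1 : ℝ) / (d : ℝ) ^ (3 / 2 : ℝ)) :=
  Real.summable_one_div_nat_rpow.2 (by norm_num)

/-- the mean value of `|a - p| / φ(|a - p|)` over the primes `p ≤ M` is bounded -/
theorem sum_ratio : ∃ C : ℝ, 0 < C ∧ ∀ J M : ℕ, 16 * (J + 1) ^ 2 ≤ M → ∀ a : ℤ, a.natAbs ≤ J * M →
    ∑ p ∈ (Icc 1 M).filter (fun p : ℕ => p.Prime ∧ (p : ℤ) ≠ a),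
      (((a - p).natAbs : ℝ) / ((a - p).natAbs.totient : ℝ)) ≤ C * (M / Real.log M) := by
  classical
  set S : ℝ := ∑' d : ℕ, (1 : ℝ) / (d : ℝ) ^ (3 / 2 : ℝ) with hS
  have hS0 : 0 ≤ S := tsum_nonneg fun d => by positivity
  refine ⟨2 * (44 + 704 * S), by positivity, fun J M hM a ha => ?_⟩
  have hM16 : 16 ≤ M := by nlinarith
  have hMr : (16 : ℝ) ≤ M := by exact_mod_cast hM16
  have hM0 : (0 : ℝ) < M := by linarith
  have hlog : 0 < Real.log M := Real.log_pos (by linarith)
  obtain ⟨D, hD⟩ : ∃ D : ℕ, D = Nat.sqrt ((J + 1) * M) + 1 := ⟨_, rfl⟩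
  have hD1 : 1 ≤ D := by omega
  have hDD : (J + 1) * M ≤ D * D := by
    rw [hD]
    exact (Nat.lt_succ_sqrt _).le
  have hD4 : D * D ≤ 4 * ((J + 1) * M) := by
    have h1 := Nat.sqrt_le ((J + 1) * M)
    have h2 : 1 ≤ Nat.sqrt ((J + 1) * M) := by
      rw [Nat.le_sqrt]
      nlinarith
    rw [hD]
    nlinarith
  have hDM4 : (D * D) * (D * D) ≤ M ^ 3 := by
    calc (D * D) * (D * D) ≤ (4 * ((J + 1) * M)) * (4 * ((J + 1) * M)) := Nat.mul_le_mul hD4 hD4
      _ = (16 * (J + 1) ^ 2) * M ^ 2 := by ring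
      _ ≤ M * M ^ 2 := Nat.mul_le_mul_right _ hM
      _ = M ^ 3 := by ring
  have hDM : D ≤ M := by
    by_contra hcon
    have h1 : M + 1 ≤ D := by omega
    have h2 : (M + 1) ^ 4 ≤ (D * D) * (D * D) := by
      calc (M + 1) ^ 4 ≤ D ^ 4 := Nat.pow_le_pow_left h1 4
        _ = (D * D) * (D * D) := by ring
    have h3 : M ^ 3 < (M + 1) ^ 4 := by
      calc M ^ 3 < (M + 1) ^ 3 := Nat.pow_lt_pow_left (by omega) (by norm_num)
        _ ≤ (M + 1) ^ 4 := Nat.pow_le_pow_right (by omega) (by norm_num)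
    omega
  have hDr : (0 : ℝ) < D := by exact_mod_cast hD1
  have hlogMD : Real.log M / 4 ≤ Real.log (M / D) := by
    have h1 : (M : ℝ) ≤ (M / D : ℝ) ^ 4 := by
      rw [div_pow, le_div_iff₀ (by positivity)]
      have h2 : ((D * D * (D * D) : ℕ) : ℝ) ≤ ((M ^ 3 : ℕ) : ℝ) := by exact_mod_cast hDM4
      push_cast at h2
      nlinarith
    have h2 := Real.log_le_log hM0 h1
    rw [Real.log_pow] at h2
    push_cast at h2
    linarith
  set PS := (Icc 1 M).filter (fun p : ℕ => p.Prime ∧ (p : ℤ) ≠ a) with hPS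
  have hz : ∀ p ∈ PS, (a - p).natAbs ≠ 0 ∧ (a - p).natAbs ≤ D * D := by
    intro p hp
    rw [hPS, mem_filter, mem_Icc] at hp
    obtain ⟨⟨hp1, hp2⟩, hp3, hp4⟩ := hp
    refine ⟨by omega, ?_⟩
    have h1 : (a - p).natAbs ≤ a.natAbs + p := by omega
    calc (a - p).natAbs ≤ a.natAbs + p := h1
      _ ≤ J * M + M := by omega
      _ = (J + 1) * M := by ring
      _ ≤ D * D := hDD
  -- the number of primes
  have hcard : (PS.card : ℝ) ≤ 44 * (M / Real.log M) := by
    have h1 : PS.card ≤ ((Icc 1 M).filter (fun p => p.Prime ∧ p % 1 = 0)).card := by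
      apply card_le_card
      intro p hp
      rw [hPS, mem_filter] at hp
      rw [mem_filter]
      exact ⟨hp.1, hp.2.1, Nat.mod_one p⟩
    have h2 := class_card M 1 0 one_pos (by omega)
    rw [Nat.totient_one, Nat.div_one] at h2
    have h3 : (PS.card : ℝ) ≤ ((Icc 1 M).filter (fun p => p.Prime ∧ p % 1 = 0)).card := by exact_mod_cast h1
    refine h3.trans (h2.trans ?_)
    push_cast
    rw [div_one, mul_one, ← mul_div_assoc]
    have h4 : Real.log M ≤ Real.log (M + 1) := Real.log_le_log hM0 (by linarith)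
    rw [div_le_div_iff₀ (by linarith) hlog]
    have h5 : 22 * ((M : ℝ) + 1) ≤ 44 * M := by linarith
    calc 22 * ((M : ℝ) + 1) * Real.log M ≤ 44 * M * Real.log M := by gcongr
      _ ≤ 44 * M * Real.log (M + 1) := by gcongr
  -- primes in a class
  have hclass : ∀ d ∈ Icc 1 D, ((PS.filter (fun p : ℕ => d ∣ (a - p).natAbs)).card : ℝ) * (1 / (d : ℝ)) ≤
      704 * (1 / (d : ℝ) ^ (3 / 2 : ℝ)) * (M / Real.log M) := by
    intro d hd
    rw [mem_Icc] at hd
    have hd0 : (0 : ℝ) < d := by exact_mod_cast hd.1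
    have hdM : d ≤ M := hd.2.trans hDM
    have h1 : PS.filter (fun p : ℕ => d ∣ (a - p).natAbs) ⊆
        (Icc 1 M).filter (fun p => p.Prime ∧ p % d = (a % d).toNat) := by
      intro p hp
      rw [mem_filter, hPS, mem_filter] at hp
      obtain ⟨⟨hp1, hp2, -⟩, hp3⟩ := hp
      rw [mem_filter]
      refine ⟨hp1, hp2, ?_⟩
      have h2 : (d : ℤ) ∣ a - p := Int.natCast_dvd.2 hp3
      have h3 : a % d = (p : ℤ) % d := (Int.emod_emod_of_dvd a (dvd_refl _)).symm.trans
        (by rw [Int.emod_emod_of_dvd a (dvd_refl _)]; exact (Int.emod_emod_of_dvd a (dvd_refl _)).symm.trans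
              (by rw [Int.emod_emod_of_dvd a (dvd_refl _)]; exact Int.emod_eq_emod_iff_emod_sub_eq_zero.2 (Int.emod_eq_zero_of_dvd h2)))
      rw [h3]
      have h4 : (p : ℤ) % d = ((p % d : ℕ) : ℤ) := by push_cast; rfl
      rw [h4, Int.toNat_natCast]
    have h2 : ((PS.filter (fun p : ℕ => d ∣ (a - p).natAbs)).card : ℝ) ≤
        ((Icc 1 M).filter (fun p => p.Prime ∧ p % d = (a % d).toNat)).card := by
      exact_mod_cast card_le_card h1
    have h3 := class_card M d (a % d).toNat hd.1 hdM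
    have hN1 : ((M / d + 1 : ℕ) : ℝ) ≤ 2 * (M / d) := by
      have h4 : ((M / d : ℕ) : ℝ) ≤ M / d := Nat.cast_div_le
      have h5 : (1 : ℝ) ≤ M / d := by
        rw [le_div_iff₀ hd0, one_mul]
        exact_mod_cast hdM
      push_cast
      linarith
    have hN2 : (M : ℝ) / D ≤ ((M / d + 1 : ℕ) : ℝ) := by
      have h4 : (M : ℝ) / D ≤ M / d := by
        apply div_le_div_of_nonneg_left hM0.le hd0
        exact_mod_cast hd.2
      have h5 : (M : ℝ) / d < ((M / d + 1 : ℕ) : ℝ) := by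
        rw [div_lt_iff₀ hd0]
        have := Nat.lt_mul_div_succ M hd.1
        have h6 : M < (M / d + 1) * d := by
          rw [mul_comm]
          exact this
        exact_mod_cast h6
      linarith
    have hlN : Real.log M / 4 ≤ Real.log ((M / d + 1 : ℕ) : ℝ) :=
      hlogMD.trans (Real.log_le_log (by positivity) hN2)
    have hφ : (0 : ℝ) < d.totient := by exact_mod_cast Nat.totient_pos.2 hd.1
    have hr0 : (0 : ℝ) ≤ (d : ℝ) / d.totient := by positivity
    have hr := ratio_sqrt d hd.1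
    have h4 : ((PS.filter (fun p : ℕ => d ∣ (a - p).natAbs)).card : ℝ) ≤
        22 * (4 * Real.sqrt d) * (2 * (M / d)) / (Real.log M / 4) := by
      refine h2.trans (h3.trans ?_)
      apply div_le_div₀ (by positivity) _ (by positivity) hlN
      gcongr
    have h5 : (d : ℝ) ^ (3 / 2 : ℝ) = d * Real.sqrt d := by
      rw [Real.sqrt_eq_rpow, ← Real.rpow_one_add' hd0.le (by norm_num)]
      norm_num
    have hsq : 0 < Real.sqrt d := Real.sqrt_pos.2 hd0
    have hsq2 : Real.sqrt d * Real.sqrt d = d := Real.mul_self_sqrt hd0.le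
    calc ((PS.filter (fun p : ℕ => d ∣ (a - p).natAbs)).card : ℝ) * (1 / (d : ℝ)) ≤
        22 * (4 * Real.sqrt d) * (2 * (M / d)) / (Real.log M / 4) * (1 / (d : ℝ)) := by gcongr
      _ = 704 * (Real.sqrt d / (d * d)) * (M / Real.log M) := by
          field_simp
          ring
      _ = 704 * (1 / (d : ℝ) ^ (3 / 2 : ℝ)) * (M / Real.log M) := by
          rw [h5]
          congr 2
          rw [div_eq_div_iff (by positivity) (by positivity)]
          rw [one_mul]
          calc Real.sqrt d * (d * Real.sqrt d) = d * (Real.sqrt d * Real.sqrt d) := by ring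
            _ = d * d := by rw [hsq2]
  have hQ0 : 0 ≤ (M : ℝ) / Real.log M := by positivity
  calc ∑ p ∈ PS, (((a - p).natAbs : ℝ) / ((a - p).natAbs.totient : ℝ)) ≤
      ∑ p ∈ PS, 2 * (1 + ∑ d ∈ (Icc 1 D).filter (fun d => d ∣ (a - p).natAbs), (1 : ℝ) / d) := by
        apply sum_le_sum
        intro p hp
        obtain ⟨h1, h2⟩ := hz p hp
        exact ratio_le_trunc _ D h1 hD1 h2
    _ = 2 * (PS.card + ∑ d ∈ Icc 1 D, ((PS.filter (fun p : ℕ => d ∣ (a - p).natAbs)).card : ℝ) * (1 / (d : ℝ))) := by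
        rw [← mul_sum, sum_add_distrib, sum_const, nsmul_eq_mul, mul_one]
        congr 2
        simp_rw [sum_filter]
        rw [sum_comm]
        apply sum_congr rfl
        intro d _
        rw [← sum_filter, sum_const, nsmul_eq_mul]
    _ ≤ 2 * (44 * (M / Real.log M) + 704 * S * (M / Real.log M)) := by
        apply mul_le_mul_of_nonneg_left _ (by norm_num)
        apply add_le_add hcard
        calc ∑ d ∈ Icc 1 D, ((PS.filter (fun p : ℕ => d ∣ (a - p).natAbs)).card : ℝ) * (1 / (d : ℝ)) ≤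
            ∑ d ∈ Icc 1 D, 704 * (1 / (d : ℝ) ^ (3 / 2 : ℝ)) * (M / Real.log M) := sum_le_sum hclass
          _ = 704 * (∑ d ∈ Icc 1 D, 1 / (d : ℝ) ^ (3 / 2 : ℝ)) * (M / Real.log M) := by
              rw [mul_sum, sum_mul]
          _ ≤ 704 * S * (M / Real.log M) := by
              apply mul_le_mul_of_nonneg_right _ hQ0
              apply mul_le_mul_of_nonneg_left _ (by norm_num)
              exact summ.sum_le_tsum _ (fun d _ => by positivity)
    _ = 2 * (44 + 704 * S) * (M / Real.log M) := by ring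

end Pool.Agent.Q145.GB
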